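import Mathlib
import Pool.Agent.T2H50.RP.Final

/-!
# One inertia group determines the image

The fields. `p` is a prime number, `K` a number field (a CM field in the application), and `L / K` a
finite extension such that `L` has only one prime above `p`, and no cyclic extension of degree `p` which
is unramified outside a set `S` of prime numbers; for `S = ∅` this says that the class number of `L` (the
narrow class number if `p = 2`) is prime to `p`.

The representations. `R` is a continuous representation of `G_K` of any dimension `n` over the fraction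
field of a Noetherian local domain with finite residue field of characteristic `p` (for example over a
finite extension of `ℚ_p`), unramified outside `p` and `S`, whose reduction is unipotent on `G_L`. For
example `L` is the field cut out by the semisimplified reduction; or `L = K(ζ_p)`, if the semisimplified
reduction is a sum of powers of the mod `p` cyclotomic character.

Theorem. Let `I` be the inertia group at a prime of the algebraic closure above `p`.
* The image of the decomposition group is dense in the image of `R`, and the image of `I ∩ G_L` is dense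
  in the image of `G_L`.
* A subspace of `R` which is stable under a subgroup of finite index of `I ∩ G_K` is stable under an open
  normal subgroup `T` of `G_K` such that `G_L / (G_L ∩ T)` is a `p`-group.
* Suppose that `R` is irreducible, and that it potentially contains a line on `I` (for example, it is
  potentially ordinary at the prime above `p`), or that `n` is a prime number and `R` is reducible on a
  subgroup of finite index of `I`. Then an open subgroup of `G_K` has commutative image. If moreover
  `L / K` is cyclic of degree dividing `p - 1`, for example `L = K(ζ_p)`, and the characteristic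
  polynomials of all `R(σ)` split, then `R` is monomial.
* If `R` is irreducible on `G_L`, the coefficient field contains a primitive `p`-th root of unity and `p`
  does not divide `n`, then `R` is irreducible on every subgroup of finite index of `I`.

So for `L = K(ζ_p)` an irreducible `R` of prime dimension, for example of dimension two, is either
monomial or irreducible on all open subgroups of the inertia group.

Examples (second part of the theorem). Let `p ≤ 7`, or let `p` be any prime such that `ℚ(ζ_p)` has no
everywhere unramified cyclic extension of degree `p` (a regular prime), and let `K` be any field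
contained in a finite Galois extension `M / ℚ(ζ_p)` of degree a power of `p` unramified outside `p`, for
example one of the CM fields `ℚ(ζ_{p^a})` or, for `p ≡ 3 mod 4`, `ℚ(√-p)`. Then `L = K(ζ_p)` satisfies
the conditions with `S = ∅`.

If `R` is monomial as above and geometric, it is automorphic by class field theory and the base change,
descent and automorphic induction of Arthur and Clozel; this deduction is not part of the formal proof.
-/

set_option autoImplicit false

namespace Pool.Agent.Results.MP_adf543_nt.OneInertiaGroup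

open Matrix IsLocalRing NumberField

/-! ### Galois groups -/

/-- The absolute Galois group of `ℚ`, with its Krull topology. The open subgroups `H` are the absolute
Galois groups of the number fields `K` (the fixed fields of `H`). -/
abbrev AbsGal : Type := Gal(AlgebraicClosure ℚ/ℚ)

/-- The ring of all algebraic integers. -/
abbrev ZBar : Type := 𝓞 (AlgebraicClosure ℚ)

/-- `τ` lies in the inertia group at the prime ideal `P` of `ZBar`. -/
def InInertia (P : Ideal ZBar) (τ : AbsGal) : Prop := ∀ x : ZBar, τ • x - x ∈ P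

/-- The inertia group at `P`. -/
def Inr (P : Ideal ZBar) : Set AbsGal := {τ | InInertia P τ}

/-- The decomposition group at `P`. -/
def Dec (P : Ideal ZBar) : Set AbsGal := {σ | ∀ x : ZBar, σ • x ∈ P ↔ x ∈ P}

/-- The absolute Galois group of `ℚ(ζ_p)`; that of `K(ζ_p)` is `H ⊓ GalCyc p`. -/
noncomputable abbrev GalCyc (p : ℕ) : Subgroup AbsGal :=
  (IntermediateField.adjoin ℚ {z : AlgebraicClosure ℚ | z ^ p = 1}).fixingSubgroup

/-- The fixed field `L` of `U` has only one prime above `p`: two prime ideals of `ZBar` above `p` contain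
the same elements of the ring of integers of `L`. -/
def OnePrimeAbove (p : ℕ) (U : Subgroup AbsGal) : Prop :=
  ∀ P Q : Ideal ZBar, P.IsMaximal → Q.IsMaximal → (p : ZBar) ∈ P → (p : ZBar) ∈ Q →
    ∀ x : ZBar, (∀ σ ∈ U, σ • x = x) → (x ∈ P ↔ x ∈ Q)

/-- The fixed field of `U` has no cyclic extension of degree `p` which is unramified at all prime ideals
not above the elements of `S`: every homomorphism with open kernel from `U` to `ℤ/p` which is trivial on
these inertia groups is trivial. -/
def NoCyclicExtension (p : ℕ) (S : Set ℕ) (U : Subgroup AbsGal) : Prop :=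
  ∀ f : U →* Multiplicative (ZMod p), IsOpen (f.ker : Set U) →
    (∀ P : Ideal ZBar, P.IsMaximal → (∀ q ∈ S, (q : ZBar) ∉ P) →
      ∀ τ : U, InInertia P (τ : AbsGal) → f τ = 1) →
    ∀ g, f g = 1

/-- `H₁` is a normal subgroup of `H` and the quotient is cyclic of order dividing `p - 1`: it is the
kernel of a character of `H` with values in `(ℤ/p)ˣ`. -/
def CyclicQuotient (p : ℕ) (H H₁ : Subgroup AbsGal) : Prop :=
  ∃ χ : H →* (ZMod p)ˣ, ∀ σ : H, χ σ = 1 ↔ (σ : AbsGal) ∈ H₁

/-- `N` is the absolute Galois group of a finite Galois extension `M` of `ℚ(ζ_p)` of degree a power of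
`p` which is unramified outside `p`. -/
structure PExtension (p : ℕ) (N : Subgroup AbsGal) : Prop where
  isOpen : IsOpen (N : Set AbsGal)
  le : N ≤ GalCyc p
  normal : ∀ g ∈ GalCyc p, ∀ t ∈ N, g * t * g⁻¹ ∈ N
  index : ∃ a : ℕ, N.relIndex (GalCyc p) = p ^ a
  unramified : ∀ P : Ideal ZBar, P.IsMaximal → (p : ZBar) ∉ P → ∀ τ, InInertia P τ → τ ∈ N

/-! ### Representations -/

section rep

variable {H : Subgroup AbsGal} {A : Type} [CommRing A] {n : ℕ}

/-- The representation `ρ` of `H` is continuous, its reduction is unipotent on `H₁`, and it is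
unramified outside `p` and `S`. -/
structure Admissible [IsLocalRing A] [TopologicalSpace A] (p : ℕ) (S : Set ℕ) (H₁ : Subgroup AbsGal)
    (ρ : H →* GL (Fin n) A) : Prop where
  cont : ∀ i j, Continuous fun σ => (ρ σ : Matrix (Fin n) (Fin n) A) i j
  unipotent : ∀ σ : H, (σ : AbsGal) ∈ H₁ → ∃ m : ℕ, ∀ i j,
    (((ρ σ : Matrix (Fin n) (Fin n) A) - 1) ^ m) i j ∈ maximalIdeal A
  unramified : ∀ P : Ideal ZBar, P.IsMaximal → (p : ZBar) ∉ P → (∀ q ∈ S, (q : ZBar) ∉ P) →
    ∀ τ : H, InInertia P (τ : AbsGal) → ρ τ = 1

/-- The matrix of `σ` on `V = F ^ n`. -/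
noncomputable def mat (F : Type) [Field F] [Algebra A F] (ρ : H →* GL (Fin n) A) (σ : H) :
    Matrix (Fin n) (Fin n) F :=
  (ρ σ : Matrix (Fin n) (Fin n) A).map (algebraMap A F)

/-- The image of `D` is dense in the image of `E`: modulo every power of the maximal ideal each element
of the image of `E` is the image of an element of `D`. -/
def DenseImage [IsLocalRing A] (ρ : H →* GL (Fin n) A) (D E : Set AbsGal) : Prop :=
  ∀ g : H, (g : AbsGal) ∈ E → ∀ m : ℕ, ∃ δ : H, (δ : AbsGal) ∈ D ∧
    ∀ i j, (ρ g : Matrix (Fin n) (Fin n) A) i j - (ρ δ : Matrix (Fin n) (Fin n) A) i j ∈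
      maximalIdeal A ^ m

/-- The subspace `W` of `V` is stable under `T`. -/
def Stable {F : Type} [Field F] [Algebra A F] (ρ : H →* GL (Fin n) A) (T : Subgroup H)
    (W : Submodule F (Fin n → F)) : Prop :=
  ∀ σ ∈ T, ∀ w ∈ W, mat F ρ σ *ᵥ w ∈ W

/-- `V` is irreducible under the subgroup `T`. -/
def IrreducibleOn (F : Type) [Field F] [Algebra A F] (ρ : H →* GL (Fin n) A) (T : Subgroup H) :
    Prop :=
  ∀ W : Submodule F (Fin n → F), Stable ρ T W → W = ⊥ ∨ W = ⊤

/-- Finitely many left cosets of the subgroup `D'` of `H` cover the elements of `H` which are in `D`;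
for example `D'` is a subgroup of finite index of `D ∩ H`. -/
def Covers (D' : Subgroup H) (D : Set AbsGal) : Prop :=
  ∃ R : Set H, R.Finite ∧ ∀ δ : H, (δ : AbsGal) ∈ D → ∃ r ∈ R, r⁻¹ * δ ∈ D'

/-- `V` potentially contains a line on `D`: some nonzero vector of `V` is an eigenvector of all
elements of a subgroup `D'` of `H`, finitely many left cosets of which cover `D ∩ H`. -/
def PotentialLine (F : Type) [Field F] [Algebra A F] (ρ : H →* GL (Fin n) A) (D : Set AbsGal) :
    Prop :=
  ∃ (D' : Subgroup H) (v : Fin n → F), Covers D' D ∧ v ≠ 0 ∧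
    ∀ δ ∈ D', ∃ c : F, mat F ρ δ *ᵥ v = c • v

/-- `V` is potentially reducible on `D`: some subspace other than `0` and `V` is stable under a subgroup
`D'` of `H`, finitely many left cosets of which cover `D ∩ H`. -/
def PotentiallyReducible (F : Type) [Field F] [Algebra A F] (ρ : H →* GL (Fin n) A)
    (D : Set AbsGal) : Prop :=
  ∃ (D' : Subgroup H) (W : Submodule F (Fin n → F)), Covers D' D ∧ Stable ρ D' W ∧ W ≠ ⊥ ∧ W ≠ ⊤

/-- An open normal subgroup of finite index has commutative image. -/
def PotentiallyAbelian (ρ : H →* GL (Fin n) A) : Prop :=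
  ∃ T : Subgroup H, T.Normal ∧ T.FiniteIndex ∧ IsOpen (T : Set H) ∧
    ∀ σ ∈ T, ∀ τ ∈ T, ρ σ * ρ τ = ρ τ * ρ σ

/-- The characteristic polynomials of all elements of the image split over `F`. -/
def Split (F : Type) [Field F] [Algebra A F] (ρ : H →* GL (Fin n) A) : Prop :=
  ∀ σ : H, (mat F ρ σ).charpoly.Splits

/-- The representation `V` is monomial: there are an open subgroup `J`, of index `n = dim V`, and a
nonzero vector of `V` which is an eigenvector of all elements of `J`, so that the irreducible
representation `V` is induced from the character of `J` on this vector; `J` contains an open normal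
subgroup `T` of `H` such that the image of `H₁` in `H / T` is a `p`-group. -/
def Monomial (F : Type) [Field F] [Algebra A F] (p : ℕ) (H₁ : Subgroup AbsGal)
    (ρ : H →* GL (Fin n) A) : Prop :=
  ∃ (T J : Subgroup H) (u : Fin n → F), T.Normal ∧ IsOpen (T : Set H) ∧
    (∀ σ : H, (σ : AbsGal) ∈ H₁ → ∃ k : ℕ, σ ^ p ^ k ∈ T) ∧ T ≤ J ∧ J.index = n ∧ u ≠ 0 ∧
    ∀ σ ∈ J, ∃ c : F, mat F ρ σ *ᵥ u = c • u

end rep

/-- The conclusion, for all admissible representations of `H`; `P` is a prime ideal above `p`. -/
def DeterminedByInertia (p : ℕ) (S : Set ℕ) (H H₁ : Subgroup AbsGal) (P : Ideal ZBar) : Prop :=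
  ∀ (A : Type) [CommRing A] [IsLocalRing A] [IsNoetherianRing A] [TopologicalSpace A],
    IsAdic (maximalIdeal A) → Finite (ResidueField A) → (p : A) ∈ maximalIdeal A →
  ∀ (F : Type) [Field F] [Algebra A F] [IsFractionRing A F] (n : ℕ) (ρ : H →* GL (Fin n) A),
    Admissible p S H₁ ρ →
    DenseImage ρ (Dec P) H ∧ DenseImage ρ (Inr P ∩ H₁) H₁ ∧
    (∀ (D' : Subgroup H) (W : Submodule F (Fin n → F)), Covers D' (Inr P) → Stable ρ D' W →
      ∃ T : Subgroup H, T.Normal ∧ IsOpen (T : Set H) ∧
        (∀ σ : H, (σ : AbsGal) ∈ H₁ → ∃ k : ℕ, σ ^ p ^ k ∈ T) ∧ Stable ρ T W) ∧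
    (IrreducibleOn F ρ ⊤ →
      PotentialLine F ρ (Inr P) ∨ (n.Prime ∧ PotentiallyReducible F ρ (Inr P)) →
      PotentiallyAbelian ρ ∧ (CyclicQuotient p H H₁ → Split F ρ → Monomial F p H₁ ρ)) ∧
    (IrreducibleOn F ρ (H₁.subgroupOf H) → (∃ ζ : F, IsPrimitiveRoot ζ p) → ¬ p ∣ n →
      ¬ PotentiallyReducible F ρ (Inr P))

open Pool.Agent.T2H50.RP in
theorem determined {p : ℕ} [hp : Fact p.Prime] {S : Set ℕ} {H H₁ : Subgroup AbsGal}
    (ho : IsOpen (H₁ : Set AbsGal)) (hle : H₁ ≤ H) (h1 : OnePrimeAbove p H₁)
    (h2 : NoCyclicExtension p S H₁) {P : Ideal ZBar} (hP : P.IsMaximal) (hpP : (p : ZBar) ∈ P) :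
    DeterminedByInertia p S H H₁ P := by
  intro A _ _ _ _ hA hfin hpA F _ _ _ n ρ hρ
  refine ⟨?_, ?_, ?_, ?_, ?_⟩
  · intro g _ m
    exact final1 ho hle h1 h2 hP hpP hA hfin hpA hρ.cont hρ.unipotent hρ.unramified g m
  · intro g hg m
    exact final2 ho hle h1 h2 hP hpP hA hfin hpA hρ.cont hρ.unipotent hρ.unramified g hg m
  · rintro D' W ⟨R, hRf, hR⟩ hW
    exact final3 ho hle h1 h2 hP hpP hA hfin hpA hρ.cont hρ.unipotent hρ.unramified hRf hR hW
  · rintro hirr (⟨D', v, ⟨R, hRf, hR⟩, hv, hD'v⟩ | ⟨hn, D', W, ⟨R, hRf, hR⟩, hW, hW0, hW1⟩)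
    · exact final4 ho hle h1 h2 hP hpP hA hfin hpA hρ.cont hρ.unipotent hρ.unramified
        (fun W hW => hirr W fun σ _ => hW σ) hRf hR hv hD'v
    · exact final6 ho hle h1 h2 hP hpP hA hfin hpA hρ.cont hρ.unipotent hρ.unramified
        (fun W hW => hirr W fun σ _ => hW σ) hn hRf hR ⟨W, hW, hW0, hW1⟩
  · rintro hirr hζ hn ⟨D', W, ⟨R, hRf, hR⟩, hW, hW0, hW1⟩
    rcases final5 ho hle h1 h2 hP hpP hA hfin hpA hρ.cont hρ.unipotent hρ.unramified
      (fun W hW => hirr W hW) hζ hn hRf hR hW with h | h
    · exact hW0 h
    · exact hW1 h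

/-- **One inertia group determines the image.** The first part is the theorem, the second part gives
the examples over the regular primes. -/
theorem result :
    (∀ (p : ℕ) [Fact p.Prime] (S : Set ℕ) (H H₁ : Subgroup AbsGal), IsOpen (H₁ : Set AbsGal) →
      H₁ ≤ H → OnePrimeAbove p H₁ → NoCyclicExtension p S H₁ →
      ∀ P : Ideal ZBar, P.IsMaximal → (p : ZBar) ∈ P → DeterminedByInertia p S H H₁ P) ∧
    (∀ (p : ℕ) [Fact p.Prime], (p ≤ 7 ∨ NoCyclicExtension p ∅ (GalCyc p)) →
      ∀ H N : Subgroup AbsGal, PExtension p N → N ≤ H →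
      IsOpen ((H ⊓ GalCyc p : Subgroup AbsGal) : Set AbsGal) ∧ OnePrimeAbove p (H ⊓ GalCyc p) ∧
      NoCyclicExtension p ∅ (H ⊓ GalCyc p) ∧ CyclicQuotient p H (H ⊓ GalCyc p)) := by
  refine ⟨fun p _ S H H₁ ho hle h1 h2 P hP hpP => determined ho hle h1 h2 hP hpP, ?_⟩
  intro p hp hreg H N hN hNH
  exact Pool.Agent.T2H50.RP.final_fam hreg hN.isOpen hNH hN.le hN.normal hN.index hN.unramified

end Pool.Agent.Results.MP_adf543_nt.OneInertiaGroup
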