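import Mathlib
import Pool.Agent.T2H50.A384.Twist

/-!
# Potential isomorphism at one place above `2` implies potential isomorphism

The fields. Either (a) `K` is contained in a finite Galois extension `M / ℚ` of degree a power of `2`,
unramified outside `2`, `q` and infinity, where `q` is a prime number `3` or `5` modulo `8` (for example
`K` is one of the CM fields `ℚ(ζ_{2^a})`, `ℚ(ζ_{2^a 3})`, `ℚ(ζ_{2^a 5})`, `ℚ(√-q)`, or a CM field in a
`2`-tower over these); or (b) `K ⊇ ℚ(√-d)` is contained in a finite Galois extension `M / ℚ(√-d)` of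
degree a power of `2`, unramified outside `2`, where `d` is a prime number `7` modulo `16` or the
product of a prime number `5` modulo `8` and of a prime number `3` modulo `8`.

The representations. `R` and `R'` are continuous representations of `G_K` of any dimensions over a
finite extension `E` of `ℚ_2` (or the fraction field of a Noetherian local domain with finite residue
field of characteristic `2`), residually unipotent, and unramified outside `2`, `q` in case (a), outside
`2` in case (b). `R'` is strongly absolutely irreducible.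

Theorem. Let `D'` be a subgroup of finite index of the decomposition group of ONE place of `K` above
`2`. (1) If `R` is irreducible and there is a nonzero homomorphism `R' → R` over `D'`, then `R` is
isomorphic to `R' ⊗ θ`, where `θ` is a representation of the Galois group of a finite Galois extension
of `K` of degree a power of `2`. (2) If `dim R = dim R'` and there is a nonzero homomorphism `R' → R`
over `D'`, then `R` is isomorphic to `R' ⊗ χ`, where `χ` is a character of finite order; here the
irreducibility of `R` is not assumed.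

So if `R'` is the representation of an algebraic cuspidal automorphic representation `π`, then in case
(2) `R` is automorphic, associated with a twist of `π`; in case (1) it is automorphic if it is absolutely
irreducible, by the base change and the automorphic induction of Arthur and Clozel, as `θ` is then
monomial. (This deduction is not part of the formal proof.)
-/

set_option autoImplicit false

namespace Pool.Agent.Results.MP_adf543_nt.PotentialIsomorphismAtOnePlace

open Matrix IsLocalRing

/-- An algebraic closure of `ℚ`. -/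
abbrev QBar : Type := AlgebraicClosure ℚ

/-! ### The two families of Galois groups -/

/-- The absolute Galois group of `ℚ`, with its Krull topology. -/
abbrev AbsGal : Type := QBar ≃ₐ[ℚ] QBar

/-- The decomposition group in `AbsGal` of the place of `ℚ̄` above `p` given by the embedding `ι`. -/
def Dec {p : ℕ} [Fact p.Prime] (ι : QBar →ₐ[ℚ] PadicAlgCl p) : Set AbsGal :=
  {σ | ∃ τ : PadicAlgCl p ≃ₐ[ℚ_[p]] PadicAlgCl p, ∀ x, τ (ι x) = ι (σ x)}

/-- Its inertia group: the automorphisms which are trivial on the residue field. -/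
def Inr {p : ℕ} [Fact p.Prime] (ι : QBar →ₐ[ℚ] PadicAlgCl p) : Set AbsGal :=
  {σ | ∃ τ : PadicAlgCl p ≃ₐ[ℚ_[p]] PadicAlgCl p, (∀ x, τ (ι x) = ι (σ x)) ∧
    ∀ z : PadicAlgCl p, ‖z‖ ≤ 1 → ‖τ z - z‖ < 1}

/-- The union of the inertia groups in `AbsGal` of all places above the primes other than `2`, `q`. -/
def AllInr (q : ℕ) : Set AbsGal :=
  {σ | ∃ (p : ℕ) (_ : Fact p.Prime) (ι : QBar →ₐ[ℚ] PadicAlgCl p), p ≠ 2 ∧ p ≠ q ∧ σ ∈ Inr ι}

/-- The field `ℚ(s)`. It is `ℚ(√-d)` if `s² = -d`. -/
noncomputable abbrev K (s : QBar) : IntermediateField ℚ QBar := IntermediateField.adjoin ℚ {s}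

/-- The absolute Galois group of `ℚ(s)`. -/
def GalK (s : QBar) : Type := QBar ≃ₐ[K s] QBar

/-- its group structure -/
noncomputable instance instGroupGalK (s : QBar) : Group (GalK s) :=
  AlgEquiv.aut (R := K s) (A₁ := QBar)

/-- its Krull topology -/
noncomputable instance instTopGalK (s : QBar) : TopologicalSpace (GalK s) := krullTopology (K s) QBar

/-- The action of the Galois group on `ℚ̄`. -/
noncomputable def app {s : QBar} (σ : GalK s) (x : QBar) : QBar := (show QBar ≃ₐ[K s] QBar from σ) x

/-- The class of the numbers `d`: the primes `7 mod 16`, and the products of a prime `5 mod 8` and of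
a prime `3 mod 8`. -/
def InClass (d : ℕ) : Prop :=
  (d.Prime ∧ d % 16 = 7) ∨ ∃ p q : ℕ, p.Prime ∧ q.Prime ∧ p % 8 = 5 ∧ q % 8 = 3 ∧ d = p * q

/-- The decomposition group in `GalK s` of the place given by the embedding `ι` of `ℚ̄`. -/
def DecK (s : QBar) {p : ℕ} [Fact p.Prime] (ι : QBar →ₐ[ℚ] PadicAlgCl p) : Set (GalK s) :=
  {σ | ∃ τ : PadicAlgCl p ≃ₐ[ℚ_[p]] PadicAlgCl p, ∀ x, τ (ι x) = ι (app σ x)}

/-- Its inertia group: the automorphisms which are trivial on the residue field. -/
def InrK (s : QBar) {p : ℕ} [Fact p.Prime] (ι : QBar →ₐ[ℚ] PadicAlgCl p) : Set (GalK s) :=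
  {σ | ∃ τ : PadicAlgCl p ≃ₐ[ℚ_[p]] PadicAlgCl p, (∀ x, τ (ι x) = ι (app σ x)) ∧
    ∀ z : PadicAlgCl p, ‖z‖ ≤ 1 → ‖τ z - z‖ < 1}

/-- The union of the inertia groups in `GalK s` of all places above the odd primes. -/
def AllInrK (s : QBar) : Set (GalK s) :=
  {σ | ∃ (p : ℕ) (_ : Fact p.Prime) (ι : QBar →ₐ[ℚ] PadicAlgCl p), p ≠ 2 ∧ σ ∈ InrK s ι}

/-! ### Representations -/

section rep

variable {G : Type} [Group G] [TopologicalSpace G]

/-- `N` is a normal open subgroup of index a power of `2` and contains `I`: it is the absolute Galois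
group of a finite Galois extension of `ℚ` or `ℚ(s)` of degree a power of `2`, unramified outside the
allowed primes. -/
structure TwoExtension (I : Set G) (N : Subgroup G) : Prop where
  isOpen : IsOpen (N : Set G)
  normal : N.Normal
  index : ∃ a : ℕ, N.index = 2 ^ a
  unramified : ∀ σ ∈ I, σ ∈ N

/-- The representation `ρ` of the subgroup `H` is continuous, residually unipotent and trivial on the
elements of `I` (unramified outside the allowed primes). -/
structure Admissible (I : Set G) {H : Subgroup G} {A : Type} [CommRing A] [IsLocalRing A]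
    [TopologicalSpace A] {n : ℕ} (ρ : H →* GL (Fin n) A) : Prop where
  cont : ∀ i j, Continuous fun σ => (ρ σ : Matrix (Fin n) (Fin n) A) i j
  unipotent : ∀ σ, ∃ m : ℕ, ∀ i j,
    (((ρ σ : Matrix (Fin n) (Fin n) A) - 1) ^ m) i j ∈ maximalIdeal A
  unramified : ∀ σ : H, (σ : G) ∈ I → ρ σ = 1

/-- The matrix of `σ` on `V = F ^ n`. -/
noncomputable def mat {H : Subgroup G} {A : Type} [CommRing A] (F : Type) [Field F] [Algebra A F]
    {n : ℕ} (ρ : H →* GL (Fin n) A) (σ : H) : Matrix (Fin n) (Fin n) F :=
  (ρ σ : Matrix (Fin n) (Fin n) A).map (algebraMap A F)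

/-- The subspace `W` of `V` is stable under `T`. -/
def Stable {H : Subgroup G} {A : Type} [CommRing A] {F : Type} [Field F]
    [Algebra A F] {n : ℕ} (ρ : H →* GL (Fin n) A) (T : Subgroup H) (W : Submodule F (Fin n → F)) :
    Prop :=
  ∀ σ ∈ T, ∀ w ∈ W, mat F ρ σ *ᵥ w ∈ W

/-- `V` is irreducible under the subgroup `T`. -/
def IrreducibleOn {H : Subgroup G} {A : Type} [CommRing A] (F : Type) [Field F]
    [Algebra A F] {n : ℕ} (ρ : H →* GL (Fin n) A) (T : Subgroup H) : Prop :=
  ∀ W : Submodule F (Fin n → F), Stable ρ T W → W = ⊥ ∨ W = ⊤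

/-- Finitely many left cosets of the subgroup `D'` of `H` cover the elements of `H` which are in the
decomposition group `D`; for example `D'` is an open subgroup of `D ∩ H`. -/
def Covers {H : Subgroup G} (D' : Subgroup H) (D : Set G) : Prop :=
  ∃ R : Set H, R.Finite ∧ ∀ δ : H, (δ : G) ∈ D → ∃ r ∈ R, r⁻¹ * δ ∈ D'

/-- `V'` is strongly absolutely irreducible: under every open normal subgroup of index a power of `2` it
is irreducible and has only scalar endomorphisms. -/
def StronglyIrreducible {H : Subgroup G} {A : Type} [CommRing A] (F : Type) [Field F]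
    [Algebra A F] {n : ℕ} (ρ : H →* GL (Fin n) A) : Prop :=
  ∀ T : Subgroup H, T.Normal → IsOpen (T : Set H) → (∃ a : ℕ, T.index = 2 ^ a) →
    IrreducibleOn F ρ T ∧
    ∀ M : Matrix (Fin n) (Fin n) F, (∀ σ ∈ T, mat F ρ σ * M = M * mat F ρ σ) →
      ∃ c : F, M = c • (1 : Matrix (Fin n) (Fin n) F)

/-- There is a nonzero homomorphism from `V'` to `V` over a subgroup `D'` of `H`, finitely many left
cosets of which cover the elements of `H` which are in `D`. -/
def PotentialHom {H : Subgroup G} {A : Type} [CommRing A] (F : Type) [Field F]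
    [Algebra A F] {n n' : ℕ} (ρ : H →* GL (Fin n) A) (ρ' : H →* GL (Fin n') A) (D : Set G) : Prop :=
  ∃ (D' : Subgroup H) (f : Matrix (Fin n) (Fin n') F), Covers D' D ∧ f ≠ 0 ∧
    ∀ δ ∈ D', mat F ρ δ * f = f * mat F ρ' δ

/-- `V` is isomorphic to `V' ⊗ θ`, where `θ` is a representation of `H` over `F` which is trivial on an
open normal subgroup of index a power of `2`; `V' ⊗ θ` is realised on the space of the vectors
`(v_1, …, v_k)` with components in `V'`. -/
def TensorArtin {H : Subgroup G} {A : Type} [CommRing A] (F : Type) [Field F]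
    [Algebra A F] {n n' : ℕ} (ρ : H →* GL (Fin n) A) (ρ' : H →* GL (Fin n') A) : Prop :=
  ∃ (T : Subgroup H) (k : ℕ) (θ : H →* GL (Fin k) F)
    (P : (Fin k → Fin n' → F) ≃ₗ[F] (Fin n → F)),
    T.Normal ∧ IsOpen (T : Set H) ∧ (∃ a : ℕ, T.index = 2 ^ a) ∧ (∀ σ ∈ T, θ σ = 1) ∧
    ∀ σ v, mat F ρ σ *ᵥ (P v) =
      P (fun i => ∑ j, (θ σ : Matrix (Fin k) (Fin k) F) i j • (mat F ρ' σ *ᵥ (v j)))

/-- `V` and `V'` have the same dimension and `V` is isomorphic to `V' ⊗ χ`, where `χ` is a character of
`H` which is trivial on an open normal subgroup of index a power of `2`. -/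
def TwistOf {H : Subgroup G} {A : Type} [CommRing A] (F : Type) [Field F]
    [Algebra A F] {n : ℕ} (ρ ρ' : H →* GL (Fin n) A) : Prop :=
  ∃ (T : Subgroup H) (χ : H →* Fˣ) (P : (Fin n → F) ≃ₗ[F] (Fin n → F)),
    T.Normal ∧ IsOpen (T : Set H) ∧ (∃ a : ℕ, T.index = 2 ^ a) ∧ (∀ σ ∈ T, χ σ = 1) ∧
    ∀ σ v, mat F ρ σ *ᵥ (P v) = P ((χ σ : F) • (mat F ρ' σ *ᵥ v))

/-- The conclusion, for the subgroups of the Galois group `G` with the inertia elements `I` and the
decomposition group `D` of one place above `2`: if `V` is irreducible, `V'` strongly absolutely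
irreducible, and there is a nonzero homomorphism from `V'` to `V` over a subgroup of finite index of
the decomposition group, then `V` is isomorphic to `V' ⊗ θ` with `θ` of finite image; if moreover
`dim V = dim V'`, then `V` is a twist of `V'` by a character of finite order (and then the
irreducibility of `V` need not be assumed). -/
def LocalGlobal (I D : Set G) : Prop :=
  ∀ H N : Subgroup G, N ≤ H → TwoExtension I N →
    ∀ (A : Type) [CommRing A] [IsLocalRing A] [IsNoetherianRing A] [TopologicalSpace A],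
      IsAdic (maximalIdeal A) → Finite (ResidueField A) → (2 : A) ∈ maximalIdeal A →
    ∀ (F : Type) [Field F] [Algebra A F] [IsFractionRing A F] (n' : ℕ) (ρ' : H →* GL (Fin n') A),
      Admissible I ρ' → StronglyIrreducible F ρ' →
      (∀ (n : ℕ) (ρ : H →* GL (Fin n) A), Admissible I ρ → IrreducibleOn F ρ ⊤ →
        PotentialHom F ρ ρ' D → TensorArtin F ρ ρ') ∧
      (∀ ρ : H →* GL (Fin n') A, Admissible I ρ → PotentialHom F ρ ρ' D → TwistOf F ρ ρ')

end rep

/-- **Potential isomorphism at one place above `2` implies potential isomorphism.** -/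
theorem result :
    (∀ q : ℕ, q.Prime → (q % 8 = 3 ∨ q % 8 = 5) → ∀ ι : QBar →ₐ[ℚ] PadicAlgCl 2,
      LocalGlobal (AllInr q) (Dec ι)) ∧
    (∀ d : ℕ, InClass d → ∀ s : QBar, s ^ 2 = -(d : QBar) → ∀ ι : QBar →ₐ[ℚ] PadicAlgCl 2,
      LocalGlobal (AllInrK s) (DecK s ι)) := by
  refine ⟨fun q hq hq8 ι => ?_, fun d hd s hs ι => ?_⟩
  · have hG := Pool.Agent.T2H50.A384.gen2Q hq hq8 ι
    have hI := Pool.Agent.T2H50.A384.IQ_conj q
    intro H N hNH hN A _ _ _ _ hA hfin h2 F _ _ _ n' ρ' hρ' hstr
    refine ⟨fun n ρ hρ hirr hpot => ?_, fun ρ hρ hpot => ?_⟩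
    · obtain ⟨D', f, ⟨R, hRf, hR⟩, hf0, hf⟩ := hpot
      exact Pool.Agent.T2H50.A384.tensorA hG hI hNH hN.normal hN.index hN.isOpen
        (fun σ hσ => hN.unramified σ hσ) hA hfin h2 hρ.cont hρ.unipotent hρ.unramified
        hρ'.cont hρ'.unipotent hρ'.unramified (fun W hW => hirr W fun σ _ => hW σ) hstr hRf hR hf0 hf
    · obtain ⟨D', f, ⟨R, hRf, hR⟩, hf0, hf⟩ := hpot
      exact Pool.Agent.T2H50.A384.twistA hG hI hNH hN.normal hN.index hN.isOpen
        (fun σ hσ => hN.unramified σ hσ) hA hfin h2 hρ.cont hρ.unipotent hρ.unramified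
        hρ'.cont hρ'.unipotent hρ'.unramified hstr hRf hR hf0 hf
  · have hG := Pool.Agent.T2H50.A384.gen2K hs hd ι
    have hI := Pool.Agent.T2H50.A384.IK_conj s
    intro H N hNH hN A _ _ _ _ hA hfin h2 F _ _ _ n' ρ' hρ' hstr
    refine ⟨fun n ρ hρ hirr hpot => ?_, fun ρ hρ hpot => ?_⟩
    · obtain ⟨D', f, ⟨R, hRf, hR⟩, hf0, hf⟩ := hpot
      exact Pool.Agent.T2H50.A384.tensorA hG hI hNH hN.normal hN.index hN.isOpen
        (fun σ hσ => hN.unramified σ hσ) hA hfin h2 hρ.cont hρ.unipotent hρ.unramified
        hρ'.cont hρ'.unipotent hρ'.unramified (fun W hW => hirr W fun σ _ => hW σ) hstr hRf hR hf0 hf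
    · obtain ⟨D', f, ⟨R, hRf, hR⟩, hf0, hf⟩ := hpot
      exact Pool.Agent.T2H50.A384.twistA hG hI hNH hN.normal hN.index hN.isOpen
        (fun σ hσ => hN.unramified σ hσ) hA hfin h2 hρ.cont hρ.unipotent hρ.unramified
        hρ'.cont hρ'.unipotent hρ'.unramified hstr hRf hR hf0 hf

end Pool.Agent.Results.MP_adf543_nt.PotentialIsomorphismAtOnePlace
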