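import Mathlib
import Pool.Agent.T2H50.A384.Main

/-!
# Representations over the fields in the `2`-extensions of `ℚ` unramified outside `2`, `q`, infinity

Let `q` be a prime number that is `3` or `5` modulo `8`, and let `K` be a field contained in a finite
Galois extension `M / ℚ` of degree a power of `2` which is unramified outside `2`, `q` and infinity,
for example one of the CM fields `ℚ(ζ_{2^a})` (`a ≥ 2`), `ℚ(ζ_{2^a 3})` (`q = 3`), `ℚ(ζ_{2^a 5})`
(`q = 5`), `ℚ(√-q)`, `ℚ(√-2q)` or a CM field in a `2`-tower over these; there is no condition on the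
structure of the Galois group of `M / ℚ`, and `K / ℚ` need not be Galois.

Let `R` be a continuous representation of `G_K` over a finite extension `E` of `ℚ_2` (or over the
fraction field of any Noetherian local domain with finite residue field of characteristic `2`), of any
dimension `m`, which is residually unipotent and unramified outside `2` and `q`; the ramification at
`q` is arbitrary.

Theorem. `K` has only one place above `2`, and the image of its decomposition group is dense in the
image of `R`. If `R` is irreducible and if it potentially contains a line at the place above `2` (for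
example if it is potentially ordinary there), then an open subgroup of `G_K` has commutative image; and
if `E` is so large that the characteristic polynomials of all `R(σ)` split, then `R` is monomial: it is
induced from a character of `G_L`, where `L / K` has degree `m` and is contained in a finite Galois
extension of `K` of degree a power of `2`.

If `R` is moreover potentially semi-stable at the place above `2`, then the character is algebraic, and
`R` is automorphic by class field theory and the automorphic induction of Arthur and Clozel. (This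
deduction is not part of the formal proof.)
-/

set_option autoImplicit false

namespace Pool.Agent.Results.MP_adf543_nt.TwoTowersOverQ

open Matrix IsLocalRing

/-- An algebraic closure of `ℚ`. -/
abbrev QBar : Type := AlgebraicClosure ℚ

/-! ### Galois groups -/

/-- The absolute Galois group of `ℚ`, with its Krull topology. -/
abbrev AbsGal : Type := QBar ≃ₐ[ℚ] QBar

/-- The decomposition group in `AbsGal` of the place of `ℚ̄` above `p` given by the embedding `ι`. -/
def Dec {p : ℕ} [Fact p.Prime] (ι : QBar →ₐ[ℚ] PadicAlgCl p) : Set AbsGal :=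
  {σ | ∃ τ : PadicAlgCl p ≃ₐ[ℚ_[p]] PadicAlgCl p, ∀ x, τ (ι x) = ι (σ x)}

/-- Its inertia group: the automorphisms which are trivial on the residue field. -/
def Inr {p : ℕ} [Fact p.Prime] (ι : QBar →ₐ[ℚ] PadicAlgCl p) : Set AbsGal :=
  {σ | ∃ τ : PadicAlgCl p ≃ₐ[ℚ_[p]] PadicAlgCl p, (∀ x, τ (ι x) = ι (σ x)) ∧
    ∀ z : PadicAlgCl p, ‖z‖ ≤ 1 → ‖τ z - z‖ < 1}

/-- The union of the inertia groups in `AbsGal` of all places above the primes other than `2`, `q`. -/
def AllInr (q : ℕ) : Set AbsGal :=
  {σ | ∃ (p : ℕ) (_ : Fact p.Prime) (ι : QBar →ₐ[ℚ] PadicAlgCl p), p ≠ 2 ∧ p ≠ q ∧ σ ∈ Inr ι}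

/-! ### Representations -/

section rep

variable {G : Type} [Group G] [TopologicalSpace G]

/-- `N` is a normal open subgroup of index a power of `2` and contains `I`: it is the absolute Galois
group of a finite Galois extension of `ℚ` of degree a power of `2`, unramified outside the allowed
primes. -/
structure TwoExtension (I : Set G) (N : Subgroup G) : Prop where
  isOpen : IsOpen (N : Set G)
  normal : N.Normal
  index : ∃ a : ℕ, N.index = 2 ^ a
  unramified : ∀ σ ∈ I, σ ∈ N

/-- The representation `ρ` of the subgroup `H` is continuous, residually unipotent and trivial on the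
elements of `I` (unramified outside the allowed primes). -/
structure Admissible (I : Set G) {H : Subgroup G} {A : Type} [CommRing A] [IsLocalRing A]
    [TopologicalSpace A] {n : ℕ} (ρ : H →* GL (Fin n) A) : Prop where
  cont : ∀ i j, Continuous fun σ => (ρ σ : Matrix (Fin n) (Fin n) A) i j
  unipotent : ∀ σ, ∃ m : ℕ, ∀ i j,
    (((ρ σ : Matrix (Fin n) (Fin n) A) - 1) ^ m) i j ∈ maximalIdeal A
  unramified : ∀ σ : H, (σ : G) ∈ I → ρ σ = 1

/-- The matrix of `σ` on `V = F ^ n`. -/
noncomputable def mat {H : Subgroup G} {A : Type} [CommRing A] (F : Type) [Field F] [Algebra A F]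
    {n : ℕ} (ρ : H →* GL (Fin n) A) (σ : H) : Matrix (Fin n) (Fin n) F :=
  (ρ σ : Matrix (Fin n) (Fin n) A).map (algebraMap A F)

/-- The image of `D` is dense in the image of `ρ`: modulo every power of the maximal ideal each element
of the image is the image of an element of `D`. -/
def DenseImage {H : Subgroup G} {A : Type} [CommRing A] [IsLocalRing A] {n : ℕ}
    (ρ : H →* GL (Fin n) A) (D : Set G) : Prop :=
  ∀ (g : H) (m : ℕ), ∃ δ : H, (δ : G) ∈ D ∧
    ∀ i j, (ρ g : Matrix (Fin n) (Fin n) A) i j - (ρ δ : Matrix (Fin n) (Fin n) A) i j ∈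
      maximalIdeal A ^ m

/-- `V` is irreducible. -/
def Irreducible {H : Subgroup G} {A : Type} [CommRing A] (F : Type) [Field F]
    [Algebra A F] {n : ℕ} (ρ : H →* GL (Fin n) A) : Prop :=
  ∀ W : Submodule F (Fin n → F), (∀ σ, ∀ w ∈ W, mat F ρ σ *ᵥ w ∈ W) → W = ⊥ ∨ W = ⊤

/-- `V` potentially contains a line on `D`: some nonzero vector of `V` is an eigenvector of all
elements of a subgroup `D'` of `H`, finitely many left cosets of which cover the elements of `H` which
are in `D`. -/
def PotentialLine {H : Subgroup G} {A : Type} [CommRing A] (F : Type) [Field F]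
    [Algebra A F] {n : ℕ} (ρ : H →* GL (Fin n) A) (D : Set G) : Prop :=
  ∃ (D' : Subgroup H) (R : Set H) (v : Fin n → F), R.Finite ∧
    (∀ δ : H, (δ : G) ∈ D → ∃ r ∈ R, r⁻¹ * δ ∈ D') ∧ v ≠ 0 ∧
    ∀ δ ∈ D', ∃ c : F, mat F ρ δ *ᵥ v = c • v

/-- An open normal subgroup of finite index has commutative image. -/
def PotentiallyAbelian {H : Subgroup G} {A : Type} [CommRing A] {n : ℕ}
    (ρ : H →* GL (Fin n) A) : Prop :=
  ∃ S : Subgroup H, S.Normal ∧ S.FiniteIndex ∧ IsOpen (S : Set H) ∧
    ∀ σ ∈ S, ∀ τ ∈ S, ρ σ * ρ τ = ρ τ * ρ σ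

/-- The characteristic polynomials of all elements of the image split over `F`. -/
def Split {H : Subgroup G} {A : Type} [CommRing A] (F : Type) [Field F]
    [Algebra A F] {n : ℕ} (ρ : H →* GL (Fin n) A) : Prop :=
  ∀ σ : H, (mat F ρ σ).charpoly.Splits

/-- The representation `V` is monomial: there are an open subgroup `L`, of index `n = dim V`, and a
nonzero vector of `V` which is an eigenvector of all elements of `L`, so that the irreducible
representation `V` is induced from the character of `L` on this vector; `L` contains an open normal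
subgroup `T` of index a power of `2`. -/
def Monomial {H : Subgroup G} {A : Type} [CommRing A] (F : Type) [Field F]
    [Algebra A F] {n : ℕ} (ρ : H →* GL (Fin n) A) : Prop :=
  ∃ (T L : Subgroup H) (u : Fin n → F), T.Normal ∧ IsOpen (T : Set H) ∧
    (∃ a : ℕ, T.index = 2 ^ a) ∧ T ≤ L ∧ L.index = n ∧ u ≠ 0 ∧
    ∀ σ ∈ L, ∃ c : F, mat F ρ σ *ᵥ u = c • u

/-- The conclusion for all representations of `H` which are continuous, residually unipotent and
trivial on the inertia elements `I`, with `D` the decomposition group of a place above `2`: the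
decomposition group has dense image; if the representation is irreducible and potentially contains a
line on `D`, it is potentially abelian, and monomial if the characteristic polynomials split. -/
def MonomialAtTwo (I D : Set G) (H : Subgroup G) : Prop :=
  ∀ (A : Type) [CommRing A] [IsLocalRing A] [IsNoetherianRing A] [TopologicalSpace A],
    IsAdic (maximalIdeal A) → Finite (ResidueField A) → (2 : A) ∈ maximalIdeal A →
  ∀ (F : Type) [Field F] [Algebra A F] [IsFractionRing A F] (n : ℕ) (ρ : H →* GL (Fin n) A),
    Admissible I ρ → DenseImage ρ D ∧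
      (Irreducible F ρ → PotentialLine F ρ D →
        PotentiallyAbelian ρ ∧ (Split F ρ → Monomial F ρ))

end rep

/-- **Representations over the fields in the `2`-extensions of `ℚ` unramified outside `2`, `q` and
infinity.** -/
theorem result : ∀ q : ℕ, q.Prime → (q % 8 = 3 ∨ q % 8 = 5) →
    ∀ H N : Subgroup AbsGal, N ≤ H → TwoExtension (AllInr q) N → ∀ ι : QBar →ₐ[ℚ] PadicAlgCl 2,
    (∀ g : AbsGal, ∃ δ ∈ Dec ι, ∃ h ∈ H, g = δ * h) ∧ MonomialAtTwo (AllInr q) (Dec ι) H := by
  intro q hq hq8 H N hNH hN ι
  have hG := Pool.Agent.T2H50.A384.gen2Q hq hq8 ι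
  have hI := Pool.Agent.T2H50.A384.IQ_conj q
  have hNI : Pool.Agent.T2H50.A384.IQ q ⊆ N := fun σ hσ => hN.unramified σ hσ
  refine ⟨fun g => ?_, ?_⟩
  · obtain ⟨δ, hδ, h⟩ := hG N hN.normal hN.index hN.isOpen hNI g
    exact ⟨δ, hδ, δ⁻¹ * g, hNH h, by group⟩
  · intro A _ _ _ _ hA hfin h2 F _ _ _ n ρ hρ
    have hu : ∀ σ : H, (σ : AbsGal) ∈ Pool.Agent.T2H50.A384.IQ q → ρ σ = 1 := hρ.unramified
    refine ⟨fun g m => ?_, fun hirr hline => ?_⟩
    · exact Pool.Agent.T2H50.A384.denseM hG hI hNH hN.normal hN.index hN.isOpen hNI hA hfin h2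
        hρ.cont hρ.unipotent hu m g
    · obtain ⟨D', R, v, hRf, hR, hv, hD'⟩ := hline
      have hd := Pool.Agent.T2H50.A384.denseA hG hI hNH hN.normal hN.index hN.isOpen hNI hA hfin h2
        hρ.cont hρ.unipotent hu
      refine ⟨Pool.Agent.Z384.pot_ab hA hρ.cont hd hRf (fun δ hδ => hR δ hδ) hirr hv hD',
        fun hsp => ?_⟩
      exact Pool.Agent.Z384.mono_ab hA hρ.cont hd
        (fun m => Pool.Agent.Z384.cong_index h2 hfin ρ hρ.unipotent m) hRf (fun δ hδ => hR δ hδ)
        hirr hsp hv hD'

end Pool.Agent.Results.MP_adf543_nt.TwoTowersOverQ
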